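import Pool.Agent.H.MP_42c7e8_an.B

namespace Pool.Agent.Results.MP_42c7e8_an.Yes

open MeasureTheory
open scoped Real

/-- the inner product of `L²(ℝ)` -/
noncomputable def ip (f h : ℝ → ℂ) : ℂ := ∫ t, f t * (starRingEnd ℂ) (h t)

/-- the time-frequency shift `π(z) g (t) = e^{2 π i ξ t} g (t - x)` for `z = (x, ξ) = x + i ξ` -/
noncomputable def tf (z : ℂ) (g : ℝ → ℂ) (t : ℝ) : ℂ :=
  Complex.exp (2 * π * Complex.I * z.im * t) * g (t - z.re)

/-- the short-time Fourier transform -/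
noncomputable def stft (g f : ℝ → ℂ) (z : ℂ) : ℂ := ip f (tf z g)

/-- the Hermite function `e^{π t²} dⁿ/dtⁿ e^{-2 π t²}`, without its normalising constant -/
noncomputable def herm (n : ℕ) (t : ℝ) : ℂ :=
  (Real.exp (π * t ^ 2) * iteratedDeriv n (fun s => Real.exp (-2 * π * s ^ 2)) t : ℝ)

theorem result (g : ℝ → ℂ) (hg : MemLp g 2 volume) (h0 : ¬g =ᵐ[volume] 0)
    (H : ∀ R : ℝ, 0 < R → ∃ C : ℂ, C ≠ 0 ∧ ∀ f : ℝ → ℂ, MemLp f 2 volume → ∀ z : ℂ,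
      C * stft g f z = ∫ w in Metric.ball z R, ip (tf w g) (tf z g) * stft g f w) :
    ∃ (n : ℕ) (c a : ℂ), c ≠ 0 ∧ g =ᵐ[volume] fun t => c * tf a (herm n) t := by
  refine Pool.Agent.H.MP_42c7e8_an.main hg h0 fun R hR => ?_
  obtain ⟨C, -, hC⟩ := H R hR
  refine ⟨C, fun b => ?_⟩
  have e : tf 0 g = g := by funext t; simp [tf]
  have := hC _ (Pool.Agent.H.MP_42c7e8_an.gs2 b) 0
  rw [stft, e] at this
  exact this

end Pool.Agent.Results.MP_42c7e8_an.Yes
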